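import Pool.Agent.N62.RF.Final
import Pool.Agent.N62.RF.ARPX
import Pool.Agent.N62.RF.BOUND
import Pool.Agent.N62.RF.CLAIM
import Pool.Agent.N62.RF.CONV
import Pool.Agent.N62.RF.FI
import Pool.Agent.N62.RF.FININT
import Pool.Agent.N62.RF.FINU
import Pool.Agent.N62.RF.GEN
import Pool.Agent.N62.RF.HFIN
import Pool.Agent.N62.RF.INT
import Pool.Agent.N62.RF.K
import Pool.Agent.N62.RF.LAW0
import Pool.Agent.N62.RF.LAW1
import Pool.Agent.N62.RF.LAWEXT
import Pool.Agent.N62.RF.LAYER
import Pool.Agent.N62.RF.MAXL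
import Pool.Agent.N62.RF.MPI
import Pool.Agent.N62.RF.NILP
import Pool.Agent.N62.RF.NOETH
import Pool.Agent.N62.RF.PN
import Pool.Agent.N62.RF.QUOT
import Pool.Agent.N62.RF.RED
import Pool.Agent.N62.RF.RW
import Pool.Agent.N62.RF.SW
import Pool.Agent.N62.RF.TRI
import Pool.Agent.N62.RF.UP
import Pool.Agent.N62.RF.WORD

set_option autoImplicit false

namespace Pool.Agent.Results.MP_5aea19_al.LocallyResiduallyFinite

open Polynomial

section

variable (F : Type) [Field F]

/-- The free associative algebra (without unit) on `x₀, x₁, x₂, …` over `F`. -/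
abbrev FreeAlg : Type := MonoidAlgebra F (FreeSemigroup ℕ)

variable (A : Type) [NonUnitalRing A] [Module F A] [IsScalarTower F A A] [SMulCommClass F A A]

/-- The identity `f = 0` holds in the algebra `A`: every homomorphism from the free algebra to `A`
maps `f` to `0`. -/
def Satisfies (f : FreeAlg F) : Prop := ∀ φ : FreeAlg F →ₙₐ[F] A, φ f = 0

/-- `A` belongs to the variety defined by the identities `f = 0`, `f ∈ E`. -/
def InVariety (E : Set (FreeAlg F)) : Prop := ∀ f ∈ E, Satisfies F A f

/-- `A` is finitely generated. -/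
def FinGen : Prop := ∃ S : Finset A, NonUnitalAlgebra.adjoin F (S : Set A) = ⊤

/-- `A` is residually finite: for every `a ≠ 0` there is a homomorphism onto a finite-dimensional
algebra which does not map `a` to `0`. -/
def ResiduallyFinite : Prop :=
  ∀ a : A, a ≠ 0 → ∃ (B : Type) (_ : NonUnitalRing B) (_ : Module F B) (_ : IsScalarTower F B B)
    (_ : SMulCommClass F B B) (φ : A →ₙₐ[F] B),
    Function.Surjective φ ∧ Module.Finite F B ∧ φ a ≠ 0

end

/-- The variety defined by `E` is locally residually finite. -/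
def LocallyResiduallyFinite (F : Type) [Field F] (E : Set (FreeAlg F)) : Prop :=
  ∀ (A : Type) [NonUnitalRing A] [Module F A] [IsScalarTower F A A] [SMulCommClass F A A],
    InVariety F A E → FinGen F A → ResiduallyFinite F A

/-- The algebra `B₀` generated by the matrices `e₁₂`, `t e₂₂`, `e₂₃` over the polynomial ring
`F[t]`. -/
noncomputable def B0 (F : Type) [Field F] : NonUnitalSubalgebra F (Matrix (Fin 3) (Fin 3) F[X]) :=
  NonUnitalAlgebra.adjoin F {Matrix.single 0 1 1, Matrix.single 1 1 X, Matrix.single 1 2 1}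

/-- The coefficient of the monomial `x y ^ k z` in `f(x, y, z)`; the letters `0, 1, 2` are
`x, y, z`. -/
noncomputable def coeffXYZ {F : Type} [Field F] (f : FreeAlgebra F (Fin 3)) (k : ℕ) : F :=
  (FreeAlgebra.basisFreeMonoid F (Fin 3)).repr f
    (FreeMonoid.ofList (0 :: (List.replicate k 1 ++ [2])))

/-- The identity `f(x, y, z) = 0` holds for all `x, y, z ∈ A` (the value is computed in the algebra
`F ⊕ A`). -/
def Holds {F : Type} [Field F] (f : FreeAlgebra F (Fin 3)) (A : Type) [NonUnitalRing A]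
    [Module F A] [IsScalarTower F A A] [SMulCommClass F A A] : Prop :=
  ∀ x y z : A, FreeAlgebra.lift F
    ![(x : Unitization F A), (y : Unitization F A), (z : Unitization F A)] f = 0

/-- Over a finite field a variety of associative algebras is locally residually finite if and only
if one of its defining identities fails in `B₀`, and if and only if it satisfies an identity
`f(x, y, z) = 0` in which some monomial `x y ^ k z` has a nonzero coefficient. -/
theorem result (F : Type) [Field F] [Finite F] (E : Set (FreeAlg F)) :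
    [LocallyResiduallyFinite F E,
      ∃ f ∈ E, ¬ Satisfies F (B0 F) f,
      ∃ (f : FreeAlgebra F (Fin 3)) (k : ℕ), coeffXYZ f k ≠ 0 ∧
        ∀ (A : Type) [NonUnitalRing A] [Module F A] [IsScalarTower F A A] [SMulCommClass F A A],
          InVariety F A E → Holds f A].TFAE := by
  have hRW := N62.RF.RW.t N62.RF.WORD.t
  have hPN := N62.RF.PN.t N62.RF.INT.t N62.RF.TRI.t
  have hRED := N62.RF.RED.t hRW hPN
  have hGEN := N62.RF.GEN.t hRED
  have hNILP := N62.RF.NILP.t hGEN (N62.RF.SW.t hRW hPN) (N62.RF.K.t hRW)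
  exact N62.RF.main_of N62.RF.INT.t N62.RF.LAWEXT.t N62.RF.MPI.t hGEN
    (N62.RF.LAYER.t N62.RF.NOETH.t) N62.RF.ARPX.t hNILP (N62.RF.CLAIM.t N62.RF.TRI.t)
    N62.RF.HFIN.t N62.RF.FINU.t (N62.RF.MAXL.t N62.RF.BOUND.t N62.RF.FININT.t N62.RF.MPI.t)
    N62.RF.FI.t N62.RF.UP.t N62.RF.QUOT.t N62.RF.LAW0.t N62.RF.LAW1.t N62.RF.CONV.t F E

end Pool.Agent.Results.MP_5aea19_al.LocallyResiduallyFinite
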